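import Mathlib

set_option autoImplicit false

namespace Pool.Agent.H81KD

open MvPolynomial

theorem D_aeval {L : Type} [Field L] (A : Subring L) {ι : Type} [Fintype ι] [DecidableEq ι]
    (x : ι → L) (p : MvPolynomial ι A) :
    KaehlerDifferential.D A L (aeval x p) =
      ∑ i, aeval x (pderiv i p) • KaehlerDifferential.D A L (x i) := by
  induction p using MvPolynomial.induction_on with
  | C a =>
    simp only [pderiv_C, map_zero, zero_smul, Finset.sum_const_zero]
    rw [aeval_C, Derivation.map_algebraMap]
  | add p q hp hq =>
    simp only [map_add, hp, hq, add_smul, Finset.sum_add_distrib]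
  | mul_X p j hp =>
    rw [map_mul, Derivation.leibniz, hp, aeval_X]
    have h : ∀ i, aeval x (pderiv i (p * X j)) • KaehlerDifferential.D A L (x i) =
        (x j) • (aeval x (pderiv i p) • KaehlerDifferential.D A L (x i)) +
        (if i = j then aeval x p • KaehlerDifferential.D A L (x i) else 0) := by
      intro i
      rw [pderiv_mul, map_add, map_mul, map_mul, aeval_X, add_smul]
      by_cases hij : i = j
      · subst hij
        rw [pderiv_X_self, map_one, mul_one, if_pos rfl, mul_comm, mul_smul]
      · rw [pderiv_X_of_ne (Ne.symm hij), map_zero, mul_zero, zero_smul, if_neg hij, mul_comm,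
          mul_smul]
    rw [Finset.sum_congr rfl fun i _ => h i, Finset.sum_add_distrib, ← Finset.smul_sum,
      Finset.sum_ite_eq' Finset.univ j, if_pos (Finset.mem_univ j), add_comm]

theorem alg_of_lin {L : Type} [Field L] [CharZero L] (A : Subring L) {ι : Type} [Finite ι]
    (x : ι → L) (h : LinearIndependent L (fun i => KaehlerDifferential.D A L (x i))) :
    AlgebraicIndependent A x := by
  classical
  have := Fintype.ofFinite ι
  have key : ∀ n : ℕ, ∀ p : MvPolynomial ι A, p.totalDegree ≤ n → aeval x p = 0 → p = 0 := by
    intro n
    induction n with
    | zero =>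
      intro p hp h0
      have hc : p = C (p.coeff 0) := by
        rw [← totalDegree_eq_zero_iff_eq_C]
        omega
      rw [hc, aeval_C] at h0
      have : p.coeff 0 = 0 := by
        apply Subtype.ext
        exact h0
      rw [hc, this, C_0]
    | succ k ih =>
      intro p hp h0
      have h1 : ∑ i, aeval x (pderiv i p) • KaehlerDifferential.D A L (x i) = 0 := by
        rw [← D_aeval, h0, map_zero]
      have h2 := Fintype.linearIndependent_iff.mp h _ h1
      have h3 : ∀ i, pderiv i p = 0 := by
        intro i
        refine ih _ ?_ (h2 i)
        refine Finset.sup_le fun m hm => ?_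
        have hm1 : (m + Finsupp.single i 1) ∈ p.support := by
          rw [mem_support_iff] at hm ⊢
          intro hc
          rw [coeff_pderiv, hc, zero_mul] at hm
          exact hm rfl
        have hm2 := le_totalDegree hm1
        rw [Finsupp.sum_add_index' (fun _ => rfl) (fun _ _ _ => rfl),
          Finsupp.sum_single_index rfl] at hm2
        omega
      have h4 : ∀ m, m ≠ 0 → coeff m p = 0 := by
        intro m hm
        obtain ⟨i, hi⟩ := Finsupp.ne_iff.mp hm
        rw [Finsupp.coe_zero, Pi.zero_apply] at hi
        have h5 : coeff (m - Finsupp.single i 1) (pderiv i p) = 0 := by rw [h3 i, coeff_zero]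
        rw [coeff_pderiv] at h5
        have h6 : m - Finsupp.single i 1 + Finsupp.single i 1 = m := by
          apply tsub_add_cancel_of_le
          rw [Finsupp.single_le_iff]
          omega
        rw [h6] at h5
        rcases mul_eq_zero.mp h5 with h7 | h7
        · exact h7
        · exfalso
          generalize hk : ((m - Finsupp.single i 1 : ι →₀ ℕ) i : ℕ) = k' at h7
          have h9 : ((k' + 1 : ℕ) : L) = 0 := by
            have := congrArg (Subtype.val : A → L) h7
            push_cast at this ⊢
            exact this
          exact Nat.succ_ne_zero _ (Nat.cast_eq_zero.mp h9)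
      have hc : p = C (p.coeff 0) := by
        ext m
        rw [coeff_C]
        split_ifs with hm
        · rw [← hm]
        · rw [h4 m (Ne.symm hm)]
      rw [hc, aeval_C] at h0
      have h10 : p.coeff 0 = 0 := by
        apply Subtype.ext
        exact h0
      rw [hc, h10, C_0]
  rw [algebraicIndependent_iff]
  exact fun p hp => key _ p le_rfl hp

end Pool.Agent.H81KD
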